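import Pool.Agent.TH637.Sq.Defs

open Set Filter Topology

namespace TH637.Sq

/-- Chain rule of second order along a curve. -/
theorem chain2 {E : Type*} [NormedAddCommGroup E] [NormedSpace ℝ E] {ρ : E → ℝ} {p : E}
    (hρ : ContDiffAt ℝ 2 ρ p) {γ γ' : ℝ → E} {c : E} (h0 : γ 0 = p)
    (h1 : ∀ᶠ t in 𝓝 (0 : ℝ), HasDerivAt γ (γ' t) t) (h2 : HasDerivAt γ' c 0) :
    (∀ᶠ t in 𝓝 (0 : ℝ), HasDerivAt (fun t => ρ (γ t)) (fderiv ℝ ρ (γ t) (γ' t)) t) ∧
    HasDerivAt (fun t => fderiv ℝ ρ (γ t) (γ' t))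
      (fderiv ℝ (fderiv ℝ ρ) p (γ' 0) (γ' 0) + fderiv ℝ ρ p c) 0 := by
  have hγ0 : HasDerivAt γ (γ' 0) 0 := h1.self_of_nhds
  have hcont : ContinuousAt γ 0 := hγ0.continuousAt
  have hdiff : ∀ᶠ x in 𝓝 p, DifferentiableAt ℝ ρ x := by
    have := hρ.eventually (by simp)
    filter_upwards [this] with x hx
    exact hx.differentiableAt (by norm_num)
  have hfd : DifferentiableAt ℝ (fderiv ℝ ρ) p := by
    have : ContDiffAt ℝ 1 (fderiv ℝ ρ) p := hρ.fderiv_right (by norm_num)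
    exact this.differentiableAt (by norm_num)
  constructor
  · have hd : ∀ᶠ t in 𝓝 (0 : ℝ), DifferentiableAt ℝ ρ (γ t) := by
      have : Tendsto γ (𝓝 0) (𝓝 p) := by
        rw [← h0]; exact hcont
      exact this.eventually hdiff
    filter_upwards [h1, hd] with t ht hdt
    exact hdt.hasFDerivAt.comp_hasDerivAt t ht
  · have hA : HasDerivAt (fun t => fderiv ℝ ρ (γ t)) (fderiv ℝ (fderiv ℝ ρ) p (γ' 0)) 0 := by
      have h := hfd.hasFDerivAt
      rw [← h0] at h ⊢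
      exact h.comp_hasDerivAt 0 hγ0
    have := hA.clm_apply h2
    rw [h0] at this
    exact this

theorem rho_contDiff : ContDiff ℝ (⊤ : ℕ∞) rho := by
  have h0 : ContDiff ℝ (⊤ : ℕ∞) (fun x : Cn 2 => x 0) := by fun_prop
  have h1 : ContDiff ℝ (⊤ : ℕ∞) (fun x : Cn 2 => x 1) := by fun_prop
  have e : rho = fun x : Cn 2 => ‖x 0‖ ^ 2 + (‖x 1‖ ^ 2) ^ 2 - 1 := by
    funext x; simp only [rho]; ring
  rw [e]
  exact ((h0.norm_sq ℝ).add ((h1.norm_sq ℝ).pow 2)).sub contDiff_const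


theorem norm_sq_line (a b : ℂ) (t : ℝ) :
    ‖a + (t : ℂ) * b‖ ^ 2 = ‖a‖ ^ 2 + 2 * t * (a.re * b.re + a.im * b.im) + t ^ 2 * ‖b‖ ^ 2 := by
  rw [← Complex.normSq_eq_norm_sq, ← Complex.normSq_eq_norm_sq, ← Complex.normSq_eq_norm_sq]
  simp [Complex.normSq_apply]
  ring

/-- dot product of complex numbers as plane vectors -/
noncomputable def dt (a b : ℂ) : ℝ := a.re * b.re + a.im * b.im

theorem rho_line (q v : Cn 2) (t : ℝ) :
    rho (q + t • v) = ‖q 0‖ ^ 2 + 2 * t * dt (q 0) (v 0) + t ^ 2 * ‖v 0‖ ^ 2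
      + (‖q 1‖ ^ 2 + 2 * t * dt (q 1) (v 1) + t ^ 2 * ‖v 1‖ ^ 2) ^ 2 - 1 := by
  have h0 : (q + t • v) 0 = q 0 + (t : ℂ) * v 0 := by simp
  have h1 : (q + t • v) 1 = q 1 + (t : ℂ) * v 1 := by simp
  have e4 : ∀ x : ℝ, x ^ 4 = (x ^ 2) ^ 2 := fun x => by ring
  simp only [rho]
  rw [h0, h1, e4, norm_sq_line, norm_sq_line]
  simp only [dt]

theorem rho_line_hasDerivAt (q v : Cn 2) (t : ℝ) :
    HasDerivAt (fun t : ℝ => rho (q + t • v))
      (2 * dt (q 0) (v 0) + 2 * t * ‖v 0‖ ^ 2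
        + 2 * (‖q 1‖ ^ 2 + 2 * t * dt (q 1) (v 1) + t ^ 2 * ‖v 1‖ ^ 2)
          * (2 * dt (q 1) (v 1) + 2 * t * ‖v 1‖ ^ 2)) t := by
  have e : (fun t : ℝ => rho (q + t • v)) = fun t : ℝ =>
      ‖q 0‖ ^ 2 + 2 * t * dt (q 0) (v 0) + t ^ 2 * ‖v 0‖ ^ 2
      + (‖q 1‖ ^ 2 + 2 * t * dt (q 1) (v 1) + t ^ 2 * ‖v 1‖ ^ 2) ^ 2 - 1 := by
    funext t; exact rho_line q v t
  rw [e]
  have hA : ∀ A B C : ℝ, HasDerivAt (fun t : ℝ => A + 2 * t * B + t ^ 2 * C)
      (2 * B + 2 * t * C) t := by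
    intro A B C
    have h1 : HasDerivAt (fun t : ℝ => 2 * t * B) (2 * 1 * B) t :=
      ((hasDerivAt_id' t).const_mul 2).mul_const B
    have h2 : HasDerivAt (fun t : ℝ => t ^ 2 * C) ((2 : ℕ) * t ^ (2 - 1) * 1 * C) t :=
      ((hasDerivAt_id' t).fun_pow 2).mul_const C
    have h3 := (h1.const_add A).fun_add h2
    refine h3.congr_deriv ?_
    push_cast; ring
  have hB := (hA (‖q 1‖ ^ 2) (dt (q 1) (v 1)) (‖v 1‖ ^ 2)).fun_pow 2
  have h := ((hA (‖q 0‖ ^ 2) (dt (q 0) (v 0)) (‖v 0‖ ^ 2)).fun_add hB).sub_const 1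
  refine h.congr_deriv ?_
  push_cast; ring

theorem rho_fderiv_line (q v : Cn 2) (t : ℝ) :
    fderiv ℝ rho (q + t • v) v = 2 * dt (q 0) (v 0) + 2 * t * ‖v 0‖ ^ 2
        + 2 * (‖q 1‖ ^ 2 + 2 * t * dt (q 1) (v 1) + t ^ 2 * ‖v 1‖ ^ 2)
          * (2 * dt (q 1) (v 1) + 2 * t * ‖v 1‖ ^ 2) := by
  have hd : DifferentiableAt ℝ rho (q + t • v) := rho_contDiff.differentiable (by simp) _
  have hl : HasDerivAt (fun t : ℝ => q + t • v) v t := by
    simpa using ((hasDerivAt_id' t).smul_const v).const_add q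
  have h1 : HasDerivAt (rho ∘ (fun t : ℝ => q + t • v)) (fderiv ℝ rho (q + t • v) v) t :=
    hd.hasFDerivAt.comp_hasDerivAt t hl
  exact h1.unique (rho_line_hasDerivAt q v t)

theorem rho_second (q v : Cn 2) :
    fderiv ℝ (fderiv ℝ rho) q v v
      = 2 * ‖v 0‖ ^ 2 + 8 * dt (q 1) (v 1) ^ 2 + 4 * ‖q 1‖ ^ 2 * ‖v 1‖ ^ 2 := by
  have hc : ContDiffAt ℝ 2 rho q := (rho_contDiff.contDiffAt).of_le (WithTop.coe_le_coe.2 (le_top : (2:ℕ∞) ≤ ⊤))
  have h := (chain2 hc (γ := fun t : ℝ => q + t • v) (γ' := fun _ => v) (c := 0) (by simp)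
    (Eventually.of_forall fun t => by
      simpa using ((hasDerivAt_id' t).smul_const v).const_add q)
    (hasDerivAt_const _ _)).2
  simp only [map_zero, add_zero] at h
  have e : (fun t : ℝ => fderiv ℝ rho (q + t • v) v) = fun t : ℝ =>
      2 * dt (q 0) (v 0) + 2 * t * ‖v 0‖ ^ 2
        + 2 * (‖q 1‖ ^ 2 + 2 * t * dt (q 1) (v 1) + t ^ 2 * ‖v 1‖ ^ 2)
          * (2 * dt (q 1) (v 1) + 2 * t * ‖v 1‖ ^ 2) := by
    funext t; exact rho_fderiv_line q v t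
  rw [e] at h
  have hA : ∀ A B C : ℝ, HasDerivAt (fun t : ℝ => A + 2 * t * B + t ^ 2 * C)
      (2 * B) 0 := by
    intro A B C
    have h1 : HasDerivAt (fun t : ℝ => 2 * t * B) (2 * 1 * B) 0 :=
      ((hasDerivAt_id' 0).const_mul 2).mul_const B
    have h2 : HasDerivAt (fun t : ℝ => t ^ 2 * C) ((2 : ℕ) * (0:ℝ) ^ (2 - 1) * 1 * C) 0 :=
      ((hasDerivAt_id' 0).fun_pow 2).mul_const C
    have h3 := (h1.const_add A).fun_add h2
    refine h3.congr_deriv ?_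
    push_cast; ring
  have hL : ∀ A C : ℝ, HasDerivAt (fun t : ℝ => A + 2 * t * C) (2 * C) 0 := by
    intro A C
    have h1 : HasDerivAt (fun t : ℝ => 2 * t * C) (2 * 1 * C) 0 :=
      ((hasDerivAt_id' 0).const_mul 2).mul_const C
    refine (h1.const_add A).congr_deriv ?_
    ring
  have h' := (hL (2 * dt (q 0) (v 0)) (‖v 0‖ ^ 2)).fun_add
    (((hA (‖q 1‖ ^ 2) (dt (q 1) (v 1)) (‖v 1‖ ^ 2)).const_mul 2).fun_mul
      (hL (2 * dt (q 1) (v 1)) (‖v 1‖ ^ 2)))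
  have := h.unique h'
  rw [this]
  ring

theorem rho_levi (q v : Cn 2) :
    levi rho q v = ‖v 0‖ ^ 2 + 4 * ‖q 1‖ ^ 2 * ‖v 1‖ ^ 2 := by
  unfold levi
  rw [rho_second, rho_second]
  have h0 : (Complex.I • v) 0 = Complex.I * v 0 := by simp
  have h1 : (Complex.I • v) 1 = Complex.I * v 1 := by simp
  rw [h0, h1]
  simp only [norm_mul, Complex.norm_I, one_mul]
  have e : dt (q 1) (v 1) ^ 2 + dt (q 1) (Complex.I * v 1) ^ 2 = ‖q 1‖ ^ 2 * ‖v 1‖ ^ 2 := by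
    rw [← Complex.normSq_eq_norm_sq, ← Complex.normSq_eq_norm_sq]
    simp [dt, Complex.normSq_apply]
    ring
  linear_combination 2 * e

theorem egg_open : IsOpen egg := by
  have h0 : Continuous (fun x : Cn 2 => x 0) := by fun_prop
  have h1 : Continuous (fun x : Cn 2 => x 1) := by fun_prop
  exact isOpen_lt (by fun_prop) continuous_const

theorem egg_iff (x : Cn 2) : x ∈ egg ↔ rho x < 0 := by
  simp [egg, rho]

theorem closure_egg_le {x : Cn 2} (hx : x ∈ closure egg) : rho x ≤ 0 := by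
  have hc : Continuous rho := rho_contDiff.continuous
  have : IsClosed {x : Cn 2 | rho x ≤ 0} := isClosed_le hc continuous_const
  exact (closure_minimal (fun y hy => ((egg_iff y).1 hy).le) this) hx

theorem mem_closure_of_rho_le {x : Cn 2} (hx : rho x ≤ 0) : x ∈ closure egg := by
  have hc : Tendsto (fun t : ℝ => t • x) (𝓝[<] 1) (𝓝 x) := by
    have : Tendsto (fun t : ℝ => t • x) (𝓝 1) (𝓝 ((1 : ℝ) • x)) :=
      (continuous_id.smul continuous_const).tendsto 1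
    rw [one_smul] at this
    exact this.mono_left nhdsWithin_le_nhds
  refine mem_closure_of_tendsto hc ?_
  have h1 : ∀ᶠ t : ℝ in 𝓝[<] 1, t < 1 := eventually_mem_nhdsWithin
  have h0 : ∀ᶠ t : ℝ in 𝓝[<] 1, 0 < t :=
    nhdsWithin_le_nhds (eventually_gt_nhds (by norm_num))
  filter_upwards [h1, h0] with t ht ht0
  rw [egg_iff]
  simp only [rho] at hx ⊢
  have e0 : (t • x) 0 = (t : ℂ) * x 0 := by simp
  have e1 : (t • x) 1 = (t : ℂ) * x 1 := by simp
  rw [e0, e1, norm_mul, norm_mul, Complex.norm_real, Real.norm_eq_abs, abs_of_pos ht0]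
  have ht2 : t ^ 2 < 1 := by nlinarith
  have ht4 : t ^ 4 ≤ t ^ 2 := by nlinarith [sq_nonneg t]
  have hs : (t * ‖x 0‖) ^ 2 + (t * ‖x 1‖) ^ 4 ≤ t ^ 2 * (‖x 0‖ ^ 2 + ‖x 1‖ ^ 4) := by
    have : t ^ 4 * ‖x 1‖ ^ 4 ≤ t ^ 2 * ‖x 1‖ ^ 4 := mul_le_mul_of_nonneg_right ht4 (by positivity)
    nlinarith
  have : t ^ 2 * (‖x 0‖ ^ 2 + ‖x 1‖ ^ 4) ≤ t ^ 2 * 1 :=
    mul_le_mul_of_nonneg_left (by linarith) (by positivity)
  linarith

theorem frontier_egg_iff (x : Cn 2) : x ∈ frontier egg ↔ rho x = 0 := by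
  rw [frontier, egg_open.interior_eq, Set.mem_sdiff]
  constructor
  · rintro ⟨h1, h2⟩
    rw [egg_iff, not_lt] at h2
    exact le_antisymm (closure_egg_le h1) h2
  · intro h
    exact ⟨mem_closure_of_rho_le h.le, by rw [egg_iff, h]; exact lt_irrefl _⟩

theorem rho_regular {x : Cn 2} (hx : rho x = 0) : fderiv ℝ rho x ≠ 0 := by
  intro h
  have h1 := rho_fderiv_line x x 0
  rw [zero_smul, add_zero, h] at h1
  have e0 : dt (x 0) (x 0) = ‖x 0‖ ^ 2 := by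
    rw [← Complex.normSq_eq_norm_sq, Complex.normSq_apply]; rfl
  have e1 : dt (x 1) (x 1) = ‖x 1‖ ^ 2 := by
    rw [← Complex.normSq_eq_norm_sq, Complex.normSq_apply]; rfl
  rw [e0, e1] at h1
  simp only [rho] at hx
  have h2 : (0 : ℝ) = 2 * ‖x 0‖ ^ 2 + 4 * ‖x 1‖ ^ 4 := by
    simpa [mul_assoc] using h1.trans (by ring)
  nlinarith [sq_nonneg ‖x 0‖]

theorem isDefiningOn_rho : IsDefiningOn egg univ rho where
  isOpen := isOpen_univ
  smooth := rho_contDiff.contDiffOn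
  domain := fun x _ => egg_iff x
  bdry := fun x _ => frontier_egg_iff x
  regular := fun x _ h => rho_regular h

theorem egg_levi (p : Cn 2) : LeviPseudoconvexNear egg p :=
  ⟨univ, rho, mem_univ _, isDefiningOn_rho, fun q _ _ v _ => by rw [rho_levi]; positivity⟩

theorem egg_smooth (p : Cn 2) : SmoothNear egg p :=
  ⟨univ, rho, mem_univ _, isDefiningOn_rho⟩

theorem egg_convex : Convex ℝ egg := by
  have h0 : ConvexOn ℝ univ (fun x : Cn 2 => ‖x 0‖) := by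
    refine ⟨convex_univ, fun x _ y _ a b ha hb _ => ?_⟩
    have e : (a • x + b • y) 0 = (a : ℂ) * x 0 + (b : ℂ) * y 0 := by simp
    simp only [e, smul_eq_mul]
    refine (norm_add_le _ _).trans ?_
    rw [norm_mul, norm_mul, Complex.norm_real, Complex.norm_real, Real.norm_eq_abs,
      Real.norm_eq_abs, abs_of_nonneg ha, abs_of_nonneg hb]
  have h1 : ConvexOn ℝ univ (fun x : Cn 2 => ‖x 1‖) := by
    refine ⟨convex_univ, fun x _ y _ a b ha hb _ => ?_⟩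
    have e : (a • x + b • y) 1 = (a : ℂ) * x 1 + (b : ℂ) * y 1 := by simp
    simp only [e, smul_eq_mul]
    refine (norm_add_le _ _).trans ?_
    rw [norm_mul, norm_mul, Complex.norm_real, Complex.norm_real, Real.norm_eq_abs,
      Real.norm_eq_abs, abs_of_nonneg ha, abs_of_nonneg hb]
  have h := (h0.pow (fun x _ => norm_nonneg _) 2).add (h1.pow (fun x _ => norm_nonneg _) 4)
  have h2 := h.convex_lt 1
  have e : egg = {x ∈ (univ : Set (Cn 2)) | ((fun x : Cn 2 => ‖x 0‖) ^ 2 + (fun x : Cn 2 => ‖x 1‖) ^ 4) x < 1} := by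
    ext x; simp [egg]
  rw [e]
  exact h2

theorem zero_mem_egg : (0 : Cn 2) ∈ egg := by simp [egg]

theorem egg_bounded : Bornology.IsBounded egg := by
  refine (Metric.isBounded_ball (x := (0 : Cn 2)) (r := 2)).subset ?_
  intro x hx
  rw [mem_ball_zero_iff]
  simp only [egg, mem_ofPred_eq] at hx
  have h1 : ‖x‖ ^ 2 = ‖x 0‖ ^ 2 + ‖x 1‖ ^ 2 := by
    rw [EuclideanSpace.norm_sq_eq]; simp
  have h2 : ‖x 1‖ ^ 2 ≤ 1 := by nlinarith [sq_nonneg (‖x 1‖ ^ 2), sq_nonneg ‖x 0‖]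
  have h3 : ‖x 0‖ ^ 2 ≤ 1 := by nlinarith [sq_nonneg (‖x 1‖ ^ 2)]
  nlinarith [norm_nonneg x]

/-- No defining function is strongly pseudoconvex at `(1,0)`. -/
theorem egg_not_strong : ¬ StronglyPseudoconvexAt egg pt := by
  rintro ⟨U, ρ, hpU, hρ, hpos⟩
  have hc : ContDiffAt ℝ 2 ρ pt :=
    ((hρ.smooth.contDiffAt (hρ.isOpen.mem_nhds hpU))).of_le (WithTop.coe_le_coe.2 (le_top : (2:ℕ∞) ≤ ⊤))
  -- the boundary curve in direction `c`
  have key : ∀ c : ℂ, ‖c‖ = 1 → fderiv ℝ ρ pt !₂[0, c] = 0 ∧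
      fderiv ℝ (fderiv ℝ ρ) pt !₂[0, c] !₂[0, c] = 0 := by
    intro c hcn
    set s : ℝ → ℝ := fun t => Real.sqrt (1 - t ^ 4) with hs
    set s' : ℝ → ℝ := fun t => (-(4 * t ^ 3)) / (2 * Real.sqrt (1 - t ^ 4)) with hs'
    have hsd : ∀ᶠ t in 𝓝 (0 : ℝ), HasDerivAt s (s' t) t := by
      have hne : ∀ᶠ t in 𝓝 (0 : ℝ), 1 - t ^ 4 ≠ 0 := by
        have : ContinuousAt (fun t : ℝ => 1 - t ^ 4) 0 := by fun_prop
        exact this.eventually_ne (by norm_num)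
      filter_upwards [hne] with t ht
      have h1 : HasDerivAt (fun t : ℝ => 1 - t ^ 4) (-(4 * t ^ 3)) t := by
        have := ((hasDerivAt_id' t).fun_pow 4).const_sub 1
        refine this.congr_deriv ?_
        push_cast; ring
      exact h1.sqrt ht
    have hs0 : HasDerivAt s' 0 0 := by
      have h1 : HasDerivAt (fun t : ℝ => -(4 * t ^ 3)) 0 0 := by
        have := (((hasDerivAt_id' (0:ℝ)).fun_pow 3).const_mul 4).fun_neg
        refine this.congr_deriv ?_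
        push_cast; ring
      have h2 : HasDerivAt (fun t : ℝ => 2 * Real.sqrt (1 - t ^ 4)) (2 * ((-(4 * (0:ℝ) ^ 3)) / (2 * Real.sqrt (1 - (0:ℝ) ^ 4)))) 0 := by
        have := (hsd.self_of_nhds).const_mul 2
        exact this
      have h3 := h1.fun_div h2 (by simp)
      refine h3.congr_deriv ?_
      simp
    set γ : ℝ → Cn 2 := fun t => s t • (!₂[1, 0] : Cn 2) + t • (!₂[0, c] : Cn 2) with hγ
    set γ' : ℝ → Cn 2 := fun t => s' t • (!₂[1, 0] : Cn 2) + (1 : ℝ) • (!₂[0, c] : Cn 2) with hγ'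
    have hd1 : ∀ᶠ t in 𝓝 (0 : ℝ), HasDerivAt γ (γ' t) t := by
      filter_upwards [hsd] with t ht
      exact (ht.smul_const _).fun_add ((hasDerivAt_id' t).smul_const _)
    have hd2 : HasDerivAt γ' 0 0 := by
      have := (hs0.smul_const (!₂[1, 0] : Cn 2)).add_const ((1 : ℝ) • (!₂[0, c] : Cn 2))
      rwa [zero_smul] at this
    have hγ0 : γ 0 = pt := by
      ext i; fin_cases i <;> simp [γ, s, pt]
    have hγ'0 : γ' 0 = !₂[0, c] := by
      ext i; fin_cases i <;> simp [γ', s']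
    obtain ⟨hc1, hc2⟩ := chain2 hc hγ0 hd1 hd2
    rw [map_zero, add_zero, hγ'0] at hc2
    -- the curve lies in the boundary
    have hcont : ContinuousAt γ 0 := hd1.self_of_nhds.continuousAt
    have hU : ∀ᶠ t in 𝓝 (0 : ℝ), γ t ∈ U := by
      have : U ∈ 𝓝 (γ 0) := by rw [hγ0]; exact hρ.isOpen.mem_nhds hpU
      exact hcont this
    have hlt : ∀ᶠ t in 𝓝 (0 : ℝ), 0 < 1 - t ^ 4 := by
      have : ContinuousAt (fun t : ℝ => 1 - t ^ 4) 0 := by fun_prop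
      exact this.eventually (lt_mem_nhds (by norm_num))
    have hz : ∀ᶠ t in 𝓝 (0 : ℝ), ρ (γ t) = 0 := by
      filter_upwards [hU, hlt] with t ht hlt
      rw [← hρ.bdry _ ht, frontier_egg_iff]
      have e0 : (γ t) 0 = (s t : ℂ) := by simp [γ]
      have e1 : (γ t) 1 = (t : ℂ) * c := by simp [γ]
      simp only [rho]
      rw [e0, e1, norm_mul, hcn, mul_one, Complex.norm_real, Complex.norm_real,
        Real.norm_eq_abs, Real.norm_eq_abs, sq_abs]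
      simp only [s]
      rw [Real.sq_sqrt hlt.le, Even.pow_abs (by decide : Even 4)]
      ring
    have hz1 : ∀ᶠ t in 𝓝 (0 : ℝ), fderiv ℝ ρ (γ t) (γ' t) = 0 := by
      have hz' := hz.eventually_nhds
      filter_upwards [hz', hc1] with t ht hct
      have : (fun t => ρ (γ t)) =ᶠ[𝓝 t] fun _ => 0 := ht
      exact hct.unique ((hasDerivAt_const t (0:ℝ)).congr_of_eventuallyEq this)
    constructor
    · have := hz1.self_of_nhds
      rwa [hγ0, hγ'0] at this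
    · have : (fun t => fderiv ℝ ρ (γ t) (γ' t)) =ᶠ[𝓝 0] fun _ => 0 := hz1
      exact hc2.unique ((hasDerivAt_const (0:ℝ) (0:ℝ)).congr_of_eventuallyEq this)
  have k1 := key 1 (by simp)
  have k2 := key Complex.I (by simp)
  have hI : Complex.I • (!₂[0, 1] : Cn 2) = !₂[0, Complex.I] := by
    ext i; fin_cases i <;> simp
  have hlev := hpos !₂[0, 1] (by
    intro h
    have := congrArg (fun x : Cn 2 => x 1) h
    simp at this) ⟨k1.1, by rw [hI]; exact k2.1⟩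
  unfold levi at hlev
  rw [hI, k1.2, k2.2] at hlev
  simp at hlev

end TH637.Sq
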