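import Pool.Agent.TH637.Sq.Aut
import Pool.Agent.TH637.Sq.Geo

open Set Filter Topology

namespace TH637.Sq

/-- embedding of the egg into the ball, with `s = (t+1)/2` and `c = √(1-s²)` -/
noncomputable def F (s c : ℝ) (x : Cn 2) : Cn 2 :=
  !₂[c * (x 0 / 2) * (1 - s * ((x 1 + 1) / 2))⁻¹,
    ((x 1 + 1) / 2 - s) * (1 - s * ((x 1 + 1) / 2))⁻¹]

/-- its inverse -/
noncomputable def G (s c : ℝ) (y : Cn 2) : Cn 2 :=
  !₂[2 * (c * y 0 * (1 + s * y 1)⁻¹), 2 * ((y 1 + s) * (1 + s * y 1)⁻¹) - 1]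

theorem F_zero (s c : ℝ) (x : Cn 2) :
    F s c x 0 = c * (x 0 / 2) * (1 - s * ((x 1 + 1) / 2))⁻¹ := by simp [F]
theorem F_one (s c : ℝ) (x : Cn 2) :
    F s c x 1 = ((x 1 + 1) / 2 - s) * (1 - s * ((x 1 + 1) / 2))⁻¹ := by simp [F]
theorem G_zero (s c : ℝ) (y : Cn 2) :
    G s c y 0 = 2 * (c * y 0 * (1 + s * y 1)⁻¹) := by simp [G]
theorem G_one (s c : ℝ) (y : Cn 2) :
    G s c y 1 = 2 * ((y 1 + s) * (1 + s * y 1)⁻¹) - 1 := by simp [G]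

theorem mem_ball_iff (x : Cn 2) (r : ℝ) (hr : 0 < r) :
    x ∈ Metric.ball (0 : Cn 2) r ↔ ‖x 0‖ ^ 2 + ‖x 1‖ ^ 2 < r ^ 2 := by
  have h1 : ‖x‖ ^ 2 = ‖x 0‖ ^ 2 + ‖x 1‖ ^ 2 := by
    rw [EuclideanSpace.norm_sq_eq]; simp
  rw [mem_ball_zero_iff, ← h1]
  constructor
  · intro h; exact pow_lt_pow_left₀ h (norm_nonneg _) (by norm_num)
  · intro h; exact lt_of_pow_lt_pow_left₀ 2 hr.le h

/-- the egg sits in the ball of center `(0,-1)` and radius `2` -/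
theorem egg_half {x : Cn 2} (hx : x ∈ egg) : ‖x 0 / 2‖ ^ 2 + ‖(x 1 + 1) / 2‖ ^ 2 < 1 := by
  have h : ‖x 0‖ ^ 2 + ‖x 1‖ ^ 4 < 1 := hx
  rw [norm_div, norm_div]
  have h2 : ‖(2 : ℂ)‖ = 2 := by simp
  rw [h2]
  have h3 : ‖x 1 + 1‖ ≤ ‖x 1‖ + 1 := by simpa using norm_add_le (x 1) 1
  have h4 : ‖x 1 + 1‖ ^ 2 ≤ (‖x 1‖ + 1) ^ 2 := pow_le_pow_left₀ (norm_nonneg _) h3 2
  set u := ‖x 1‖ with hu
  have hu0 : 0 ≤ u := norm_nonneg _
  have key : 0 ≤ (1 - u) ^ 2 * (u ^ 2 + 2 * u + 2) := by positivity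
  have e : (1 - u) ^ 2 * (u ^ 2 + 2 * u + 2) = u ^ 4 - u ^ 2 - 2 * u + 2 := by ring
  rw [e] at key
  have : ‖x 0‖ ^ 2 + ‖x 1 + 1‖ ^ 2 < 4 := by nlinarith
  nlinarith

theorem den_ne {s : ℝ} (hs : 0 < s) (hs1 : s < 1) {w : ℂ} (hw : ‖w‖ < 1) : 1 - (s : ℂ) * w ≠ 0 :=
  ne_zero_of_re (re_pos (by nlinarith) hw)

theorem den_ne' {s : ℝ} (hs : 0 < s) (hs1 : s < 1) {w : ℂ} (hw : ‖w‖ < 1) : 1 + (s : ℂ) * w ≠ 0 := by
  have := ne_zero_of_re (re_pos (a := -s) (by nlinarith) hw)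
  push_cast at this
  rwa [neg_mul, sub_neg_eq_add] at this

theorem norm_lt_of_sum {a b : ℝ} (ha : 0 ≤ a) (hb : 0 ≤ b) (h : a ^ 2 + b ^ 2 < 1) : b < 1 := by
  nlinarith [sq_nonneg a]

section
variable {s c : ℝ} (hs : 0 < s) (hs1 : s < 1) (hc : c ^ 2 = 1 - s ^ 2)
include hs hs1 hc

theorem F_maps : MapsTo (F s c) egg (Metric.ball 0 1) := by
  intro x hx
  rw [mem_ball_iff _ _ one_pos, one_pow]
  have h := egg_half hx
  set w := (x 1 + 1) / 2 with hw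
  set z := x 0 / 2 with hz
  have hw1 : ‖w‖ < 1 := norm_lt_of_sum (norm_nonneg _) (norm_nonneg _) h
  have hne := den_ne hs hs1 hw1
  have hnp : 0 < ‖1 - (s : ℂ) * w‖ := norm_pos_iff.2 hne
  rw [F_zero, F_one, ← hw, ← hz, norm_mul, norm_mul, norm_mul, norm_inv, Complex.norm_real,
    Real.norm_eq_abs, mul_pow, mul_pow, mul_pow, sq_abs, hc, inv_pow, ← add_mul,
    ← div_eq_mul_inv, div_lt_one (by positivity)]
  have key : ‖1 - (s : ℂ) * w‖ ^ 2 - ‖w - s‖ ^ 2 = (1 - s ^ 2) * (1 - ‖w‖ ^ 2) := by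
    rw [← Complex.normSq_eq_norm_sq, ← Complex.normSq_eq_norm_sq, ← Complex.normSq_eq_norm_sq]
    simp [Complex.normSq_apply]
    ring
  have h1 : 0 < 1 - s ^ 2 := by nlinarith
  have h2 : (1 - s ^ 2) * ‖z‖ ^ 2 < (1 - s ^ 2) * (1 - ‖w‖ ^ 2) :=
    mul_lt_mul_of_pos_left (by linarith) h1
  linarith

theorem G_F {x : Cn 2} (hx : x ∈ egg) : G s c (F s c x) = x := by
  have h := egg_half hx
  have hw1 : ‖(x 1 + 1) / 2‖ < 1 := norm_lt_of_sum (norm_nonneg _) (norm_nonneg _) h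
  have hne := den_ne hs hs1 hw1
  have hcc : (c : ℂ) ^ 2 = 1 - (s : ℂ) ^ 2 := by
    exact_mod_cast congrArg (fun t : ℝ => (t : ℂ)) hc
  have hden : 1 + (s : ℂ) * F s c x 1 = (1 - (s : ℂ) ^ 2) * (1 - (s : ℂ) * ((x 1 + 1) / 2))⁻¹ := by
    rw [F_one]
    have h2 : (1 : ℂ) = (1 - (s : ℂ) * ((x 1 + 1) / 2)) * (1 - (s : ℂ) * ((x 1 + 1) / 2))⁻¹ := by
      rw [mul_inv_cancel₀ hne]
    linear_combination h2
  have h1s : (1 - (s : ℂ) ^ 2) ≠ 0 := by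
    have : (1 - s ^ 2 : ℝ) ≠ 0 := by nlinarith
    exact_mod_cast this
  have hinv : (1 + (s : ℂ) * F s c x 1)⁻¹ = (1 - (s : ℂ) * ((x 1 + 1) / 2)) * (1 - (s : ℂ) ^ 2)⁻¹ := by
    rw [hden, mul_inv, inv_inv, mul_comm]
  ext i
  fin_cases i
  · show G s c (F s c x) 0 = x 0
    rw [G_zero, hinv, F_zero]
    have h3 := mul_inv_cancel₀ hne
    have h4 := mul_inv_cancel₀ h1s
    calc 2 * ((c : ℂ) * (c * (x 0 / 2) * (1 - (s : ℂ) * ((x 1 + 1) / 2))⁻¹)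
          * ((1 - (s : ℂ) * ((x 1 + 1) / 2)) * (1 - (s : ℂ) ^ 2)⁻¹))
        = (c : ℂ) ^ 2 * (1 - (s : ℂ) ^ 2)⁻¹ * x 0 *
          ((1 - (s : ℂ) * ((x 1 + 1) / 2)) * (1 - (s : ℂ) * ((x 1 + 1) / 2))⁻¹) := by ring
      _ = x 0 := by rw [h3, hcc, h4]; ring
  · show G s c (F s c x) 1 = x 1
    rw [G_one, hinv, F_one]
    have h3 := mul_inv_cancel₀ hne
    have h4 := mul_inv_cancel₀ h1s
    calc 2 * ((((x 1 + 1) / 2 - s) * (1 - (s : ℂ) * ((x 1 + 1) / 2))⁻¹ + s)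
          * ((1 - (s : ℂ) * ((x 1 + 1) / 2)) * (1 - (s : ℂ) ^ 2)⁻¹)) - 1
        = 2 * (1 - (s : ℂ) ^ 2)⁻¹ * (((x 1 + 1) / 2 - s) *
            ((1 - (s : ℂ) * ((x 1 + 1) / 2)) * (1 - (s : ℂ) * ((x 1 + 1) / 2))⁻¹)
            + s * (1 - (s : ℂ) * ((x 1 + 1) / 2))) - 1 := by ring
      _ = (x 1 + 1) * ((1 - (s : ℂ) ^ 2) * (1 - (s : ℂ) ^ 2)⁻¹) - 1 := by rw [h3]; ring
      _ = x 1 := by rw [h4]; ring

theorem F_G {y : Cn 2} (hy : y ∈ Metric.ball (0 : Cn 2) 1) : F s c (G s c y) = y := by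
  rw [mem_ball_iff _ _ one_pos, one_pow] at hy
  have hy1 : ‖y 1‖ < 1 := norm_lt_of_sum (norm_nonneg _) (norm_nonneg _) hy
  have hne := den_ne' hs hs1 hy1
  have hcc : (c : ℂ) ^ 2 = 1 - (s : ℂ) ^ 2 := by
    exact_mod_cast congrArg (fun t : ℝ => (t : ℂ)) hc
  have h1s : (1 - (s : ℂ) ^ 2) ≠ 0 := by
    have : (1 - s ^ 2 : ℝ) ≠ 0 := by nlinarith
    exact_mod_cast this
  have h3 := mul_inv_cancel₀ hne
  have h4 := mul_inv_cancel₀ h1s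
  have hw : (G s c y 1 + 1) / 2 = (y 1 + s) * (1 + s * y 1)⁻¹ := by
    rw [G_one]; ring
  have hden : 1 - (s : ℂ) * ((G s c y 1 + 1) / 2) = (1 - (s : ℂ) ^ 2) * (1 + (s : ℂ) * y 1)⁻¹ := by
    rw [hw]
    linear_combination (-1 : ℂ) * h3
  have hinv : (1 - (s : ℂ) * ((G s c y 1 + 1) / 2))⁻¹
      = (1 + (s : ℂ) * y 1) * (1 - (s : ℂ) ^ 2)⁻¹ := by
    rw [hden, mul_inv, inv_inv, mul_comm]
  ext i
  fin_cases i
  · show F s c (G s c y) 0 = y 0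
    rw [F_zero, hinv, G_zero]
    calc (c : ℂ) * (2 * (c * y 0 * (1 + s * y 1)⁻¹) / 2) * ((1 + (s : ℂ) * y 1) * (1 - (s : ℂ) ^ 2)⁻¹)
        = (c : ℂ) ^ 2 * (1 - (s : ℂ) ^ 2)⁻¹ * y 0 * ((1 + (s : ℂ) * y 1) * (1 + s * y 1)⁻¹) := by ring
      _ = y 0 := by rw [h3, hcc, h4]; ring
  · show F s c (G s c y) 1 = y 1
    rw [F_one, hinv, hw]
    calc ((y 1 + s) * (1 + s * y 1)⁻¹ - s) * ((1 + (s : ℂ) * y 1) * (1 - (s : ℂ) ^ 2)⁻¹)
        = ((y 1 + s) * ((1 + (s : ℂ) * y 1) * (1 + s * y 1)⁻¹) - s * (1 + (s : ℂ) * y 1))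
            * (1 - (s : ℂ) ^ 2)⁻¹ := by ring
      _ = y 1 * ((1 - (s : ℂ) ^ 2) * (1 - (s : ℂ) ^ 2)⁻¹) := by rw [h3]; ring
      _ = y 1 := by rw [h4, mul_one]

theorem F_holo : DifferentiableOn ℂ (F s c) egg := by
  rw [differentiableOn_euclidean]
  have h0 : Differentiable ℂ (fun x : Cn 2 => x 0) := by fun_prop
  have h1 : Differentiable ℂ (fun x : Cn 2 => x 1) := by fun_prop
  intro i x hx
  have h := egg_half hx
  have hw1 : ‖(x 1 + 1) / 2‖ < 1 := norm_lt_of_sum (norm_nonneg _) (norm_nonneg _) h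
  have hne := den_ne hs hs1 hw1
  have hden : DifferentiableAt ℂ (fun x : Cn 2 => 1 - (s : ℂ) * ((x 1 + 1) / 2)) x := by
    simp only [div_eq_mul_inv]
    fun_prop
  apply DifferentiableAt.differentiableWithinAt
  fin_cases i
  · have : DifferentiableAt ℂ (fun x : Cn 2 =>
        c * (x 0 * 2⁻¹) * (1 - (s : ℂ) * ((x 1 + 1) / 2))⁻¹) x :=
      (by fun_prop : DifferentiableAt ℂ (fun x : Cn 2 => c * (x 0 * 2⁻¹)) x).fun_mul
        (hden.fun_inv hne)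
    simpa [F, div_eq_mul_inv] using this
  · have : DifferentiableAt ℂ (fun x : Cn 2 =>
        ((x 1 + 1) * 2⁻¹ - s) * (1 - (s : ℂ) * ((x 1 + 1) / 2))⁻¹) x :=
      (by fun_prop : DifferentiableAt ℂ (fun x : Cn 2 => ((x 1 + 1) * 2⁻¹ - s)) x).fun_mul
        (hden.fun_inv hne)
    simpa [F, div_eq_mul_inv] using this

theorem G_holo : DifferentiableOn ℂ (G s c) (Metric.ball 0 1) := by
  rw [differentiableOn_euclidean]
  intro i y hy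
  rw [mem_ball_iff _ _ one_pos, one_pow] at hy
  have hy1 : ‖y 1‖ < 1 := norm_lt_of_sum (norm_nonneg _) (norm_nonneg _) hy
  have hne := den_ne' hs hs1 hy1
  have hden : DifferentiableAt ℂ (fun y : Cn 2 => 1 + (s : ℂ) * y 1) y := by fun_prop
  apply DifferentiableAt.differentiableWithinAt
  fin_cases i
  · have : DifferentiableAt ℂ (fun y : Cn 2 => 2 * (c * y 0 * (1 + (s : ℂ) * y 1)⁻¹)) y :=
      (differentiableAt_const _).fun_mul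
        ((by fun_prop : DifferentiableAt ℂ (fun y : Cn 2 => (c : ℂ) * y 0) y).fun_mul
          (hden.fun_inv hne))
    simpa [G] using this
  · have : DifferentiableAt ℂ (fun y : Cn 2 => 2 * ((y 1 + s) * (1 + (s : ℂ) * y 1)⁻¹) - 1) y :=
      ((differentiableAt_const _).fun_mul
        ((by fun_prop : DifferentiableAt ℂ (fun y : Cn 2 => y 1 + (s : ℂ)) y).fun_mul
          (hden.fun_inv hne))).fun_sub (differentiableAt_const _)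
    simpa [G] using this

theorem F_image : F s c '' egg = Metric.ball 0 1 ∩ G s c ⁻¹' egg := by
  ext y
  constructor
  · rintro ⟨x, hx, rfl⟩
    exact ⟨F_maps hs hs1 hc hx, by rw [mem_preimage, G_F hs hs1 hc hx]; exact hx⟩
  · rintro ⟨h1, h2⟩
    exact ⟨G s c y, h2, F_G hs hs1 hc h1⟩

/-- the main estimate -/
theorem G_mem {r : ℝ} (hr : 0 < r) (hr1 : r < 1)
    (hsmall : 272 * (1 - s) < (1 - r ^ 2) * (1 - r) ^ 2) {y : Cn 2}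
    (hy : y ∈ Metric.ball (0 : Cn 2) r) : G s c y ∈ egg := by
  rw [mem_ball_iff _ _ hr] at hy
  have hyr : ‖y 1‖ < r := by nlinarith [sq_nonneg ‖y 0‖, norm_nonneg (y 1)]
  have hy1 : ‖y 1‖ < 1 := hyr.trans hr1
  have hne := den_ne' hs hs1 hy1
  set D := 1 + (s : ℂ) * y 1 with hD
  have hDp : 0 < ‖D‖ := norm_pos_iff.2 hne
  have hsy : ‖(s : ℂ) * y 1‖ ≤ r := by
    rw [norm_mul, Complex.norm_real, Real.norm_eq_abs, abs_of_pos hs]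
    nlinarith [norm_nonneg (y 1)]
  have hDlow : 1 - r ≤ ‖D‖ := by
    have h1 : ‖(1 : ℂ)‖ ≤ ‖D‖ + ‖(s : ℂ) * y 1‖ := by
      have : (1 : ℂ) = D - (s : ℂ) * y 1 := by rw [hD]; ring
      rw [this]; exact norm_sub_le _ _
    rw [norm_one] at h1
    linarith
  have hDup : ‖D‖ ≤ 2 := by
    have : ‖D‖ ≤ ‖(1 : ℂ)‖ + ‖(s : ℂ) * y 1‖ := norm_add_le _ _
    rw [norm_one] at this
    linarith
  -- `u = 1 - ω`
  set u : ℂ := (1 - s) * (1 - y 1) * D⁻¹ with hu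
  have hw : G s c y 1 = 1 - 2 * u := by
    rw [G_one, hu]
    have h3 : D * D⁻¹ = 1 := mul_inv_cancel₀ hne
    have : (y 1 + (s : ℂ)) = D - (1 - s) * (1 - y 1) := by rw [hD]; ring
    rw [this]
    linear_combination 2 * h3
  have hunorm : ‖u‖ * (1 - r) ≤ 2 * (1 - s) := by
    have h1 : ‖u‖ = (1 - s) * ‖1 - y 1‖ / ‖D‖ := by
      rw [hu, norm_mul, norm_mul, norm_inv]
      have : ‖(1 - (s : ℂ))‖ = 1 - s := by
        have e : (1 - (s : ℂ)) = ((1 - s : ℝ) : ℂ) := by push_cast; ring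
        rw [e, Complex.norm_real, Real.norm_eq_abs, abs_of_pos (by linarith)]
      rw [this]; ring
    have h2 : ‖1 - y 1‖ ≤ 2 := by
      have := norm_sub_le (1 : ℂ) (y 1)
      rw [norm_one] at this
      linarith
    have h3 : ‖u‖ * ‖D‖ = (1 - s) * ‖1 - y 1‖ := by
      rw [h1]; field_simp
    have h4 : ‖u‖ * (1 - r) ≤ ‖u‖ * ‖D‖ := mul_le_mul_of_nonneg_left hDlow (norm_nonneg _)
    nlinarith
  have hr2 : 0 < 1 - r := by linarith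
  have hrr : (1 - r ^ 2) * (1 - r) ^ 2 ≤ 1 - r := by
    have h1 : (1 - r ^ 2) * (1 - r) ≤ 1 := by nlinarith [sq_nonneg r]
    have : (1 - r ^ 2) * (1 - r) ^ 2 = (1 - r ^ 2) * (1 - r) * (1 - r) := by ring
    rw [this]
    nlinarith
  have hu1 : ‖u‖ ≤ 1 := by
    by_contra hcon
    rw [not_le] at hcon
    nlinarith
  have husq : 68 * ‖u‖ ^ 2 < (1 - s) * (1 - r ^ 2) := by
    have h1 : ‖u‖ ^ 2 * (1 - r) ^ 2 ≤ 4 * (1 - s) ^ 2 := by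
      have := pow_le_pow_left₀ (by positivity) hunorm 2
      calc ‖u‖ ^ 2 * (1 - r) ^ 2 = (‖u‖ * (1 - r)) ^ 2 := by ring
        _ ≤ (2 * (1 - s)) ^ 2 := this
        _ = 4 * (1 - s) ^ 2 := by ring
    have h2 : 272 * (1 - s) ^ 2 < (1 - s) * ((1 - r ^ 2) * (1 - r) ^ 2) := by
      have : 0 < 1 - s := by linarith
      nlinarith
    have h3 : 68 * ‖u‖ ^ 2 * (1 - r) ^ 2 < (1 - s) * (1 - r ^ 2) * (1 - r) ^ 2 := by
      nlinarith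
    exact lt_of_mul_lt_mul_right h3 (by positivity)
  -- `δ`
  set δ : ℝ := (1 - s ^ 2) * (1 - ‖y 0‖ ^ 2 - ‖y 1‖ ^ 2) / ‖D‖ ^ 2 with hδ
  have hδlow : (1 - s) * (1 - r ^ 2) ≤ 4 * δ := by
    have h1 : 0 < 1 - r ^ 2 := by nlinarith
    have h2 : (1 - s) * (1 - r ^ 2) ≤ (1 - s ^ 2) * (1 - ‖y 0‖ ^ 2 - ‖y 1‖ ^ 2) := by
      have h3 : 1 - s ≤ 1 - s ^ 2 := by nlinarith
      exact mul_le_mul h3 (by linarith) h1.le (by nlinarith)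
    have h4 : ‖D‖ ^ 2 ≤ 4 := by nlinarith
    rw [hδ]
    rw [mul_div_assoc', le_div_iff₀ (by positivity)]
    have h5 : 0 ≤ (1 - s) * (1 - r ^ 2) := mul_nonneg (by linarith) h1.le
    have h6 : (1 - s) * (1 - r ^ 2) * ‖D‖ ^ 2 ≤ (1 - s) * (1 - r ^ 2) * 4 :=
      mul_le_mul_of_nonneg_left h4 h5
    linarith
  have hnorms : ‖G s c y 0‖ ^ 2 = 8 * u.re - 4 * ‖u‖ ^ 2 - 4 * δ := by
    have e1 : ‖G s c y 0‖ ^ 2 = 4 * (1 - s ^ 2) * ‖y 0‖ ^ 2 / ‖D‖ ^ 2 := by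
      rw [G_zero, ← hD, norm_mul, norm_mul, norm_mul, norm_inv, Complex.norm_real,
        Real.norm_eq_abs]
      have : ‖(2 : ℂ)‖ = 2 := by simp
      rw [this]
      have : (2 * (|c| * ‖y 0‖ * ‖D‖⁻¹)) ^ 2 = 4 * (|c| ^ 2) * ‖y 0‖ ^ 2 / ‖D‖ ^ 2 := by
        field_simp; ring
      rw [this, sq_abs, hc]
    have e2 : u.re = (1 - s) * ((1 - y 1) * (starRingEnd ℂ) D).re / ‖D‖ ^ 2 := by
      have : u = (((1 - s) / ‖D‖ ^ 2 : ℝ) : ℂ) * ((1 - y 1) * (starRingEnd ℂ) D) := by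
        rw [hu, Complex.inv_def, Complex.normSq_eq_norm_sq]
        push_cast
        ring
      rw [this, Complex.re_ofReal_mul]
      ring
    have e3 : ‖u‖ ^ 2 = (1 - s) ^ 2 * ‖1 - y 1‖ ^ 2 / ‖D‖ ^ 2 := by
      rw [hu, norm_mul, norm_mul, norm_inv]
      have : ‖(1 - (s : ℂ))‖ = 1 - s := by
        have e : (1 - (s : ℂ)) = ((1 - s : ℝ) : ℂ) := by push_cast; ring
        rw [e, Complex.norm_real, Real.norm_eq_abs, abs_of_pos (by linarith)]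
      rw [this]; field_simp
    rw [e1, e2, e3, hδ]
    have hD2 : ‖D‖ ^ 2 ≠ 0 := by positivity
    field_simp
    rw [← Complex.normSq_eq_norm_sq (1 - y 1), ← Complex.normSq_eq_norm_sq (y 1), hD]
    simp [Complex.normSq_apply]
    ring
  have hnw : ‖G s c y 1‖ ^ 4 = (1 - 4 * (u.re - ‖u‖ ^ 2)) ^ 2 := by
    rw [hw]
    have : ‖1 - 2 * u‖ ^ 2 = 1 - 4 * (u.re - ‖u‖ ^ 2) := by
      rw [← Complex.normSq_eq_norm_sq, ← Complex.normSq_eq_norm_sq]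
      simp [Complex.normSq_apply]
      ring
    rw [← this]; ring
  show ‖G s c y 0‖ ^ 2 + ‖G s c y 1‖ ^ 4 < 1
  rw [hnorms, hnw]
  have hre := Complex.abs_re_le_norm u
  have hb : (u.re - ‖u‖ ^ 2) ^ 2 ≤ 4 * ‖u‖ ^ 2 := by
    have h1 : |u.re - ‖u‖ ^ 2| ≤ 2 * ‖u‖ := by
      have h2 : |u.re - ‖u‖ ^ 2| ≤ |u.re| + |‖u‖ ^ 2| := abs_sub _ _
      rw [abs_of_nonneg (sq_nonneg ‖u‖)] at h2
      have h3 : ‖u‖ ^ 2 ≤ ‖u‖ := by
        rw [pow_two]; exact mul_le_of_le_one_right (norm_nonneg _) hu1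
      linarith
    have h3 := pow_le_pow_left₀ (abs_nonneg _) h1 2
    rw [sq_abs] at h3
    calc (u.re - ‖u‖ ^ 2) ^ 2 ≤ (2 * ‖u‖) ^ 2 := h3
      _ = 4 * ‖u‖ ^ 2 := by ring
  have e : 8 * u.re - 4 * ‖u‖ ^ 2 - 4 * δ + (1 - 4 * (u.re - ‖u‖ ^ 2)) ^ 2
      = 1 + 4 * ‖u‖ ^ 2 - 4 * δ + 16 * (u.re - ‖u‖ ^ 2) ^ 2 := by ring
  rw [e]
  linarith

theorem mem_radii {r t : ℝ} (hr : 0 < r) (hr1 : r < 1)
    (hsmall : 272 * (1 - s) < (1 - r ^ 2) * (1 - r) ^ 2) (hst : s = (t + 1) / 2) :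
    r ∈ radii egg (!₂[0, (t : ℂ)] : Cn 2) := by
  have hsub : Metric.ball (0 : Cn 2) r ⊆ F s c '' egg := by
    rw [F_image hs hs1 hc]
    intro y hy
    exact ⟨Metric.ball_subset_ball hr1.le hy, G_mem hs hs1 hc hr hr1 hsmall hy⟩
  refine ⟨hr, F s c, ?_, hsub⟩
  refine ⟨F_holo hs hs1 hc, ?_, F_maps hs hs1 hc, ?_, ?_, ?_⟩
  · intro x hx y hy hxy
    rw [← G_F hs hs1 hc hx, ← G_F hs hs1 hc hy, hxy]
  · ext i
    fin_cases i
    · simp [F]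
    · simp only [F]
      simp [hst]
  · rw [F_image hs hs1 hc]
    exact (G_holo hs hs1 hc).continuousOn.isOpen_inter_preimage Metric.isOpen_ball egg_open
  · refine ⟨G s c, (G_holo hs hs1 hc).mono ?_, fun x hx => G_F hs hs1 hc hx⟩
    rw [F_image hs hs1 hc]
    exact inter_subset_left

end

end TH637.Sq
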