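import Pool.Agent.TH637.Sq.Defs

open Set Filter Topology

namespace TH637.Sq

variable {n : ℕ}

theorem radii_of_equiv {D D' : Set (Cn n)} {z z' : Cn n} (T S : Cn n → Cn n)
    (hT : DifferentiableOn ℂ T D) (hTm : MapsTo T D D')
    (hS : DifferentiableOn ℂ S D') (hSm : MapsTo S D' D)
    (hST : ∀ x ∈ D, S (T x) = x) (hTS : ∀ y ∈ D', T (S y) = y) (hzz : T z = z') :
    radii D' z' ⊆ radii D z := by
  rintro r ⟨hr, F, hF, hball⟩
  have himage : (F ∘ T) '' D = F '' D' := by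
    ext y
    constructor
    · rintro ⟨x, hx, rfl⟩
      exact ⟨T x, hTm hx, rfl⟩
    · rintro ⟨x, hx, rfl⟩
      exact ⟨S x, hSm hx, by simp [hTS x hx]⟩
  refine ⟨hr, F ∘ T, ?_, by rw [himage]; exact hball⟩
  refine ⟨hF.holo.comp hT hTm, ?_, fun x hx => hF.maps (hTm hx), ?_, ?_, ?_⟩
  · intro x hx y hy hxy
    have := hF.inj (hTm hx) (hTm hy) hxy
    rw [← hST x hx, ← hST y hy, this]
  · simp only [Function.comp, hzz, hF.base]
  · rw [himage]; exact hF.image_open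
  · obtain ⟨G, hG, hGF⟩ := hF.inv_holo
    refine ⟨S ∘ G, ?_, ?_⟩
    · rw [himage]
      refine hS.comp hG ?_
      rintro y ⟨x, hx, rfl⟩
      rw [hGF x hx]; exact hx
    · intro x hx
      simp only [Function.comp]
      rw [hGF _ (hTm hx), hST x hx]

theorem radii_le_one {D : Set (Cn n)} {z : Cn n} (hn : 0 < n) {r : ℝ} (hr : r ∈ radii D z) :
    r ≤ 1 := by
  obtain ⟨hr0, F, hF, hball⟩ := hr
  by_contra h
  rw [not_le] at h
  have : Nontrivial (Cn n) := by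
    have : Nonempty (Fin n) := ⟨⟨0, hn⟩⟩
    infer_instance
  obtain ⟨x, hx⟩ := exists_ne (0 : Cn n)
  have hxn : 0 < ‖x‖ := norm_pos_iff.2 hx
  set y : Cn n := ((1 : ℝ) / ‖x‖) • x with hy
  have hyn : ‖y‖ = 1 := by
    rw [hy, norm_smul, Real.norm_eq_abs, abs_of_pos (by positivity)]
    field_simp
  have hyb : y ∈ Metric.ball (0 : Cn n) r := by
    rw [mem_ball_zero_iff, hyn]; exact h
  obtain ⟨w, hw, hwy⟩ := hball hyb
  have := hF.maps hw
  rw [hwy, mem_ball_zero_iff, hyn] at this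
  exact lt_irrefl _ this

theorem squeezing_le_one {D : Set (Cn n)} {z : Cn n} (hn : 0 < n) : squeezing D z ≤ 1 := by
  by_cases h : (radii D z).Nonempty
  · exact csSup_le h fun r hr => radii_le_one hn hr
  · rw [not_nonempty_iff_eq_empty] at h
    rw [squeezing, h, Real.sSup_empty]
    exact zero_le_one

theorem le_squeezing {D : Set (Cn n)} {z : Cn n} (hn : 0 < n) {r : ℝ} (hr : r ∈ radii D z) :
    r ≤ squeezing D z :=
  le_csSup ⟨1, fun _ h => radii_le_one hn h⟩ hr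

/-- square root through the principal logarithm -/
noncomputable def sq (z : ℂ) : ℂ := Complex.exp (Complex.log z / 2)

theorem sq_ne_zero (z : ℂ) : sq z ≠ 0 := Complex.exp_ne_zero _

theorem sq_sq {z : ℂ} (hz : z ≠ 0) : sq z ^ 2 = z := by
  rw [sq, ← Complex.exp_nat_mul]
  have : ((2 : ℕ) : ℂ) * (Complex.log z / 2) = Complex.log z := by push_cast; ring
  rw [this, Complex.exp_log hz]

theorem norm_sq_pow4 {z : ℂ} (hz : z ≠ 0) : ‖sq z‖ ^ 4 = ‖z‖ ^ 2 := by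
  have := congrArg norm (sq_sq hz)
  rw [norm_pow] at this
  rw [← this]; ring

theorem sq_div {x : ℂ} (hx : 0 < x.re) {r : ℝ} (hr : 0 < r) :
    sq (((r ^ 2 : ℝ) : ℂ) * x⁻¹) = r * (sq x)⁻¹ := by
  have hx0 : x ≠ 0 := by
    intro h; rw [h] at hx; simp at hx
  have harg : x.arg ≠ Real.pi := by
    have : x ∈ Complex.slitPlane := Or.inl hx
    exact Complex.slitPlane_arg_ne_pi this
  rw [sq, sq, Complex.log_ofReal_mul (by positivity) (inv_ne_zero hx0), Complex.log_inv _ harg,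
    Real.log_pow]
  have : ((((2 : ℕ) : ℝ) * Real.log r : ℝ) : ℂ) + -Complex.log x =
      2 * ((Real.log r : ℂ) + -(Complex.log x / 2)) := by push_cast; ring
  rw [this, mul_div_cancel_left₀ _ (two_ne_zero), Complex.exp_add, Complex.exp_neg,
    ← Complex.ofReal_exp, Real.exp_log hr]

theorem sq_real {r : ℝ} (hr : 0 < r) : sq ((r ^ 2 : ℝ) : ℂ) = r := by
  have h := sq_div (x := 1) (by simp) hr
  have h1 : sq 1 = 1 := by simp [sq]
  rw [h1] at h
  simpa using h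

/-- automorphisms of the egg -/
noncomputable def T (a b : ℝ) (x : Cn 2) : Cn 2 :=
  !₂[(x 0 - a) / (1 - a * x 0), b * x 1 / sq (1 - a * x 0)]

theorem T_zero (a b : ℝ) (x : Cn 2) : T a b x 0 = (x 0 - a) / (1 - a * x 0) := by simp [T]
theorem T_one (a b : ℝ) (x : Cn 2) : T a b x 1 = b * x 1 / sq (1 - a * x 0) := by simp [T]

theorem re_pos {a : ℝ} (ha : a ^ 2 < 1) {z : ℂ} (hz : ‖z‖ < 1) : 0 < (1 - (a : ℂ) * z).re := by
  have h1 : |a| < 1 := by
    rw [← sq_lt_one_iff_abs_lt_one]; exact ha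
  have h2 : ‖(a : ℂ) * z‖ < 1 := by
    rw [norm_mul, Complex.norm_real, Real.norm_eq_abs]
    nlinarith [abs_nonneg a, norm_nonneg z]
  have h3 := (abs_le.1 (Complex.abs_re_le_norm ((a : ℂ) * z))).2
  simp only [Complex.sub_re, Complex.one_re]
  linarith

theorem ne_zero_of_re {z : ℂ} (h : 0 < z.re) : z ≠ 0 := by
  intro h0; rw [h0] at h; simp at h

theorem egg_norm_lt {x : Cn 2} (hx : x ∈ egg) : ‖x 0‖ < 1 := by
  have h : ‖x 0‖ ^ 2 + ‖x 1‖ ^ 4 < 1 := hx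
  have : ‖x 0‖ ^ 2 < 1 := by nlinarith [sq_nonneg (‖x 1‖ ^ 2)]
  nlinarith [norm_nonneg (x 0)]

theorem T_maps {a b : ℝ} (hb : 0 < b) (hab : a ^ 2 = 1 - b ^ 4) : MapsTo (T a b) egg egg := by
  intro x hx
  have hx' : ‖x 0‖ ^ 2 + ‖x 1‖ ^ 4 < 1 := hx
  have hb4 : 0 < b ^ 4 := by positivity
  have hre := re_pos (a := a) (by linarith) (egg_norm_lt hx)
  have hne := ne_zero_of_re hre
  have hnp : 0 < ‖1 - (a : ℂ) * x 0‖ := norm_pos_iff.2 hne
  show ‖T a b x 0‖ ^ 2 + ‖T a b x 1‖ ^ 4 < 1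
  rw [T_zero, T_one, norm_div, norm_div, norm_mul, div_pow, div_pow, norm_sq_pow4 hne,
    Complex.norm_real, Real.norm_eq_abs, abs_of_pos hb, ← add_div, div_lt_one (by positivity)]
  have key : ‖1 - (a : ℂ) * x 0‖ ^ 2 - ‖x 0 - a‖ ^ 2 = (1 - a ^ 2) * (1 - ‖x 0‖ ^ 2) := by
    rw [← Complex.normSq_eq_norm_sq, ← Complex.normSq_eq_norm_sq, ← Complex.normSq_eq_norm_sq]
    simp [Complex.normSq_apply]
    ring
  have : (b * ‖x 1‖) ^ 4 = b ^ 4 * ‖x 1‖ ^ 4 := by ring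
  rw [this]
  have h3 : b ^ 4 * ‖x 1‖ ^ 4 < b ^ 4 * (1 - ‖x 0‖ ^ 2) :=
    mul_lt_mul_of_pos_left (by linarith) hb4
  have h4 : 1 - a ^ 2 = b ^ 4 := by linarith
  rw [h4] at key
  linarith

theorem T_holo {a b : ℝ} (ha : a ^ 2 < 1) : DifferentiableOn ℂ (T a b) egg := by
  rw [differentiableOn_euclidean]
  have h0 : Differentiable ℂ (fun x : Cn 2 => x 0) := by fun_prop
  have h1 : Differentiable ℂ (fun x : Cn 2 => x 1) := by fun_prop
  intro i x hx
  have hre := re_pos ha (egg_norm_lt hx)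
  have hne := ne_zero_of_re hre
  have hden : DifferentiableAt ℂ (fun x : Cn 2 => 1 - (a : ℂ) * x 0) x :=
    (differentiableAt_const _).sub ((differentiableAt_const _).mul (h0 x))
  apply DifferentiableAt.differentiableWithinAt
  fin_cases i
  · have : DifferentiableAt ℂ (fun x : Cn 2 => (x 0 - a) * (1 - (a : ℂ) * x 0)⁻¹) x :=
      ((h0 x).sub (differentiableAt_const _)).fun_mul (hden.fun_inv hne)
    simpa [T, div_eq_mul_inv] using this
  · have hs : DifferentiableAt ℂ (fun x : Cn 2 => sq (1 - (a : ℂ) * x 0)) x := by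
      unfold sq
      simp only [div_eq_mul_inv]
      exact ((hden.clog (Or.inl hre)).fun_mul (differentiableAt_const _)).cexp
    have : DifferentiableAt ℂ (fun x : Cn 2 => (b : ℂ) * x 1 * (sq (1 - (a : ℂ) * x 0))⁻¹) x :=
      ((differentiableAt_const _).mul (h1 x)).fun_mul (hs.fun_inv (sq_ne_zero _))
    simpa [T, div_eq_mul_inv] using this

theorem T_inv {a b : ℝ} (hb : 0 < b) (hab : a ^ 2 = 1 - b ^ 4) {x : Cn 2} (hx : x ∈ egg) :
    T (-a) b (T a b x) = x := by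
  have hb4 : 0 < b ^ 4 := by positivity
  have hre := re_pos (a := a) (by linarith) (egg_norm_lt hx)
  have hne := ne_zero_of_re hre
  have habc : (a : ℂ) ^ 2 = 1 - (b : ℂ) ^ 4 := by exact_mod_cast congrArg (fun t : ℝ => (t : ℂ)) hab
  have hbc : (b : ℂ) ≠ 0 := by exact_mod_cast hb.ne'
  have hden : 1 - ((-a : ℝ) : ℂ) * T a b x 0 = (((b ^ 2) ^ 2 : ℝ) : ℂ) * (1 - (a : ℂ) * x 0)⁻¹ := by
    rw [T_zero]
    push_cast
    field_simp
    linear_combination (-1 : ℂ) * habc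
  have hsq : sq (1 - ((-a : ℝ) : ℂ) * T a b x 0) = ((b ^ 2 : ℝ) : ℂ) * (sq (1 - (a : ℂ) * x 0))⁻¹ := by
    rw [hden]; exact sq_div hre (by positivity)
  have hs := sq_ne_zero (1 - (a : ℂ) * x 0)
  ext i
  fin_cases i
  · show T (-a) b (T a b x) 0 = x 0
    rw [T_zero, hden, T_zero]
    have h1 : (x 0 - a) / (1 - a * x 0) - ((-a : ℝ) : ℂ)
        = x 0 * ((((b ^ 2) ^ 2 : ℝ) : ℂ) * (1 - (a : ℂ) * x 0)⁻¹) := by
      push_cast
      rw [div_eq_mul_inv]
      have h2 : (a : ℂ) = a * (1 - (a : ℂ) * x 0) * (1 - (a : ℂ) * x 0)⁻¹ := by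
        rw [mul_assoc, mul_inv_cancel₀ hne, mul_one]
      linear_combination h2 - (x 0 * (1 - (a : ℂ) * x 0)⁻¹) * habc
    rw [h1]
    refine mul_div_cancel_right₀ _ (mul_ne_zero ?_ (inv_ne_zero hne))
    exact Complex.ofReal_ne_zero.2 (by positivity)
  · show T (-a) b (T a b x) 1 = x 1
    rw [T_one, hsq, T_one]
    push_cast
    field_simp

theorem radii_T {a b : ℝ} (hb : 0 < b) (hab : a ^ 2 = 1 - b ^ 4) {z z' : Cn 2}
    (h : T a b z = z') : radii egg z' ⊆ radii egg z := by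
  have hb4 : 0 < b ^ 4 := by positivity
  have hab' : (-a) ^ 2 = 1 - b ^ 4 := by rw [neg_sq]; exact hab
  refine radii_of_equiv (T a b) (T (-a) b) (T_holo (by linarith)) (T_maps hb hab)
    (T_holo (by linarith)) (T_maps hb hab') (fun x hx => T_inv hb hab hx) ?_ h
  intro y hy
  have := T_inv hb hab' hy
  rwa [neg_neg] at this

theorem T_base {a b t : ℝ} (hb : 0 < b) (hab : a ^ 2 = 1 - b ^ 4) :
    T a b !₂[(a : ℂ), ((b * t : ℝ) : ℂ)] = !₂[0, (t : ℂ)] := by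
  have hbc : (b : ℂ) ≠ 0 := by exact_mod_cast hb.ne'
  have e : (1 : ℂ) - a * a = (((b ^ 2) ^ 2 : ℝ) : ℂ) := by
    have h : (1 : ℝ) - a * a = (b ^ 2) ^ 2 := by linear_combination -hab
    rw [← h]; push_cast; ring
  have hs : sq (1 - (a : ℂ) * a) = ((b ^ 2 : ℝ) : ℂ) := by
    rw [e]; exact sq_real (by positivity)
  ext i
  fin_cases i
  · simp [T]
  · simp only [T]
    simp [hs]
    field_simp

end TH637.Sq
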