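import Mathlib

/-!
Squeezing function and admissible boundary points: definitions.
-/

open Set Filter Topology

namespace TH637.Sq

/-- Complex Euclidean space `ℂⁿ`. -/
abbrev Cn (n : ℕ) := EuclideanSpace ℂ (Fin n)

variable {n : ℕ}

/-- `F` is a holomorphic embedding of `D` into the unit ball with `F z = 0`: holomorphic and
injective on `D`, with open image in the unit ball and holomorphic inverse. -/
structure IsEmbedding (D : Set (Cn n)) (z : Cn n) (F : Cn n → Cn n) : Prop where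
  holo : DifferentiableOn ℂ F D
  inj : InjOn F D
  maps : MapsTo F D (Metric.ball 0 1)
  base : F z = 0
  image_open : IsOpen (F '' D)
  inv_holo : ∃ G : Cn n → Cn n, DifferentiableOn ℂ G (F '' D) ∧ ∀ x ∈ D, G (F x) = x

/-- The set of radii `r > 0` such that some holomorphic embedding of `D` into the unit ball
sending `z` to `0` has image containing the ball of radius `r`. -/
def radii (D : Set (Cn n)) (z : Cn n) : Set ℝ :=
  {r | 0 < r ∧ ∃ F : Cn n → Cn n, IsEmbedding D z F ∧ Metric.ball 0 r ⊆ F '' D}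

/-- The squeezing function `s_D(z)`. -/
noncomputable def squeezing (D : Set (Cn n)) (z : Cn n) : ℝ := sSup (radii D z)

/-- `ρ` is a `C^∞` defining function of `D` on the open set `U`. -/
structure IsDefiningOn (D U : Set (Cn n)) (ρ : Cn n → ℝ) : Prop where
  isOpen : IsOpen U
  smooth : ContDiffOn ℝ (⊤ : ℕ∞) ρ U
  domain : ∀ x ∈ U, (x ∈ D ↔ ρ x < 0)
  bdry : ∀ x ∈ U, (x ∈ frontier D ↔ ρ x = 0)
  regular : ∀ x ∈ U, ρ x = 0 → fderiv ℝ ρ x ≠ 0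

/-- The vector `v` is a complex tangent vector at `q` of the level set of `ρ`, that is
`∑ (∂ρ/∂z_j)(q) v_j = 0`. -/
def ComplexTangent (ρ : Cn n → ℝ) (q v : Cn n) : Prop :=
  fderiv ℝ ρ q v = 0 ∧ fderiv ℝ ρ q (Complex.I • v) = 0

/-- The Levi form `∑ (∂²ρ/∂z_j∂z̄_k)(q) v_j v̄_k = (D²ρ(q)(v,v) + D²ρ(q)(iv,iv)) / 4`. -/
noncomputable def levi (ρ : Cn n → ℝ) (q v : Cn n) : ℝ :=
  (fderiv ℝ (fderiv ℝ ρ) q v v
    + fderiv ℝ (fderiv ℝ ρ) q (Complex.I • v) (Complex.I • v)) / 4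

/-- `∂D` is `C^∞` near `p`. -/
def SmoothNear (D : Set (Cn n)) (p : Cn n) : Prop :=
  ∃ U ρ, p ∈ U ∧ IsDefiningOn D U ρ

/-- `∂D` is `C^∞` and Levi-pseudoconvex near `p`. -/
def LeviPseudoconvexNear (D : Set (Cn n)) (p : Cn n) : Prop :=
  ∃ U ρ, p ∈ U ∧ IsDefiningOn D U ρ ∧
    ∀ q ∈ U, q ∈ frontier D → ∀ v, ComplexTangent ρ q v → 0 ≤ levi ρ q v

/-- `∂D` is `C^∞` near `p` and strongly (Levi) pseudoconvex at `p`. -/
def StronglyPseudoconvexAt (D : Set (Cn n)) (p : Cn n) : Prop :=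
  ∃ U ρ, p ∈ U ∧ IsDefiningOn D U ρ ∧ ∀ v, v ≠ 0 → ComplexTangent ρ p v → 0 < levi ρ p v

/-- `p` has finite D'Angelo type: there is `C` such that every nonconstant holomorphic disc
`φ` through `p = φ(0)` satisfies `ord₀(ρ ∘ φ) ≤ C · ord₀(φ - p)`. -/
def FiniteTypeAt (D : Set (Cn n)) (p : Cn n) : Prop :=
  ∃ U ρ, p ∈ U ∧ IsDefiningOn D U ρ ∧ ∃ C : ℕ, ∀ φ : ℂ → Cn n, AnalyticAt ℂ φ 0 → φ 0 = p →
    (¬ ∀ᶠ ζ in 𝓝 (0 : ℂ), φ ζ = p) →
    ∀ N : ℕ, (fun ζ => ρ (φ ζ)) =O[𝓝 (0 : ℂ)] (fun ζ => ‖ζ‖ ^ N) →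
      (N : ℕ∞) ≤ C * analyticOrderAt (fun ζ => φ ζ - p) 0

/-- The Levi form of `∂D` at `p` has at least `m` positive eigenvalues: it is positive definite
on some complex subspace of dimension `m` of the complex tangent space. -/
def LeviPositiveRankAt (D : Set (Cn n)) (p : Cn n) (m : ℕ) : Prop :=
  ∃ U ρ, p ∈ U ∧ IsDefiningOn D U ρ ∧ ∃ W : Submodule ℂ (Cn n), m ≤ Module.finrank ℂ W ∧
    ∀ v ∈ W, ComplexTangent ρ p v ∧ (v ≠ 0 → 0 < levi ρ p v)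

/-- Case (A): `n = 2`, `∂D` is `C^∞` and Levi-pseudoconvex near `p`, `p` of finite type. -/
def CaseA (D : Set (Cn n)) (p : Cn n) : Prop :=
  n = 2 ∧ LeviPseudoconvexNear D p ∧ FiniteTypeAt D p

/-- Case (B). -/
def CaseB (D : Set (Cn n)) (p : Cn n) : Prop :=
  2 ≤ n ∧ LeviPseudoconvexNear D p ∧ (∀ᶠ q in 𝓝 p, q ∈ frontier D → FiniteTypeAt D q) ∧
    LeviPositiveRankAt D p (n - 2)

/-- Case (C). -/
def CaseC (D : Set (Cn n)) (p : Cn n) : Prop :=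
  2 ≤ n ∧ Convex ℝ D ∧ SmoothNear D p ∧ (∀ᶠ q in 𝓝 p, q ∈ frontier D → FiniteTypeAt D q)

/-- The egg domain `{|z|² + |w|⁴ < 1}` in `ℂ²`. -/
def egg : Set (Cn 2) := {x | ‖x 0‖ ^ 2 + ‖x 1‖ ^ 4 < 1}

/-- Its defining function. -/
noncomputable def rho (x : Cn 2) : ℝ := ‖x 0‖ ^ 2 + ‖x 1‖ ^ 4 - 1

/-- The boundary point `(1,0)`. -/
noncomputable def pt : Cn 2 := !₂[1, 0]

end TH637.Sq
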