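import Pool.Agent.TH637.Sq.Geo

open Set Filter Topology

namespace TH637.Sq

theorem norm_add_sq_c (a b : ℂ) :
    ‖a + b‖ ^ 2 = ‖a‖ ^ 2 + 2 * ((starRingEnd ℂ) a * b).re + ‖b‖ ^ 2 := by
  rw [← Complex.normSq_eq_norm_sq, ← Complex.normSq_eq_norm_sq, ← Complex.normSq_eq_norm_sq]
  simp [Complex.normSq_apply]
  ring

theorem egg_finiteType {q : Cn 2} (hq : rho q = 0) : FiniteTypeAt egg q := by
  refine ⟨univ, rho, mem_univ _, isDefiningOn_rho, 4, ?_⟩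
  intro φ hφ h0 hne N hN
  by_contra hlt
  rw [not_le] at hlt
  have hφ' : AnalyticAt ℂ (fun ζ => φ ζ - q) 0 := hφ.sub analyticAt_const
  have hord : analyticOrderAt (fun ζ => φ ζ - q) 0 ≠ ⊤ := by
    rw [ne_eq, analyticOrderAt_eq_top]
    intro h
    exact hne (h.mono fun ζ hζ => sub_eq_zero.1 hζ)
  obtain ⟨g, hg, hg0, hfg⟩ := hφ'.analyticOrderAt_ne_top.1 hord
  have hcast := Nat.cast_analyticOrderNatAt hord
  set m := analyticOrderNatAt (fun ζ => φ ζ - q) 0 with hm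
  rw [← hcast] at hlt
  have hlt' : 4 * m < N := by exact_mod_cast hlt
  have hm1 : m ≠ 0 := by
    intro hm0
    have := hfg.self_of_nhds
    simp only [hm0, h0, sub_self, pow_zero, one_smul] at this
    exact hg0 this.symm
  -- components
  have hgc : ContinuousAt g 0 := hg.continuousAt
  have hg1 : AnalyticAt ℂ (fun ζ => g ζ 0) 0 := by
    have := (EuclideanSpace.proj (𝕜 := ℂ) (0 : Fin 2)).analyticAt (g 0)
    exact this.comp hg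
  have hg2 : AnalyticAt ℂ (fun ζ => g ζ 1) 0 := by
    have := (EuclideanSpace.proj (𝕜 := ℂ) (1 : Fin 2)).analyticAt (g 0)
    exact this.comp hg
  set g1 : ℂ → ℂ := fun ζ => g ζ 0 with hg1d
  set g2 : ℂ → ℂ := fun ζ => g ζ 1 with hg2d
  have hc1 : ContinuousAt g1 0 := hg1.continuousAt
  have hc2 : ContinuousAt g2 0 := hg2.continuousAt
  set k : ℂ → ℂ := fun ζ => ζ ^ m * g2 ζ * (2 * q 1 + ζ ^ m * g2 ζ) with hk
  set H : ℂ → ℂ := fun ζ => (starRingEnd ℂ) (q 0) * (ζ ^ m * g1 ζ)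
    + (starRingEnd ℂ) (q 1 ^ 2) * k ζ with hH
  have hrho : ∀ᶠ ζ in 𝓝 (0 : ℂ), rho (φ ζ) = 2 * (H ζ).re + ‖ζ ^ m * g1 ζ‖ ^ 2 + ‖k ζ‖ ^ 2 := by
    filter_upwards [hfg] with ζ hζ
    have hφζ : φ ζ = q + (ζ - 0) ^ m • g ζ := by
      rw [← hζ]; abel
    have e0 : (φ ζ) 0 = q 0 + ζ ^ m * g1 ζ := by rw [hφζ]; simp [g1]
    have e1 : (φ ζ) 1 = q 1 + ζ ^ m * g2 ζ := by rw [hφζ]; simp [g2]
    have e4 : ∀ x : ℂ, ‖x‖ ^ 4 = ‖x ^ 2‖ ^ 2 := fun x => by rw [norm_pow]; ring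
    have e5 : (q 1 + ζ ^ m * g2 ζ) ^ 2 = q 1 ^ 2 + k ζ := by simp only [k]; ring
    simp only [rho] at hq ⊢
    rw [e0, e1, e4, e5, norm_add_sq_c, norm_add_sq_c]
    rw [e4] at hq
    simp only [H, Complex.add_re]
    linarith
  -- lower bound
  have hlow : ∃ c : ℝ, 0 < c ∧ ∀ᶠ ζ in 𝓝 (0 : ℂ),
      c * ‖ζ‖ ^ (4 * m) ≤ ‖ζ ^ m * g1 ζ‖ ^ 2 + ‖k ζ‖ ^ 2 := by
    have hball : ∀ᶠ ζ in 𝓝 (0 : ℂ), ‖ζ‖ < 1 := by
      have := Metric.ball_mem_nhds (0 : ℂ) one_pos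
      filter_upwards [this] with ζ hζ
      simpa using hζ
    have hcase : g1 0 ≠ 0 ∨ g2 0 ≠ 0 := by
      by_contra hcon
      rw [not_or, not_not, not_not] at hcon
      apply hg0
      ext i
      fin_cases i
      · exact hcon.1
      · exact hcon.2
    rcases hcase with h1 | h2
    · refine ⟨(‖g1 0‖ / 2) ^ 2, by positivity, ?_⟩
      have hev : ∀ᶠ ζ in 𝓝 (0 : ℂ), ‖g1 0‖ / 2 < ‖g1 ζ‖ :=
        hc1.norm.eventually (lt_mem_nhds (by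
          have : 0 < ‖g1 0‖ := norm_pos_iff.2 h1
          linarith))
      filter_upwards [hev, hball] with ζ hζ hζ1
      have ha : ‖ζ‖ ^ (4 * m) ≤ ‖ζ‖ ^ (2 * m) :=
        pow_le_pow_of_le_one (norm_nonneg _) hζ1.le (by omega)
      have hb : (‖g1 0‖ / 2) ^ 2 ≤ ‖g1 ζ‖ ^ 2 := pow_le_pow_left₀ (by positivity) hζ.le 2
      have hc : ‖ζ ^ m * g1 ζ‖ ^ 2 = ‖ζ‖ ^ (2 * m) * ‖g1 ζ‖ ^ 2 := by
        rw [norm_mul, norm_pow, mul_pow, ← pow_mul, mul_comm m 2]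
      rw [hc]
      calc (‖g1 0‖ / 2) ^ 2 * ‖ζ‖ ^ (4 * m) ≤ ‖g1 ζ‖ ^ 2 * ‖ζ‖ ^ (2 * m) :=
            mul_le_mul hb ha (by positivity) (by positivity)
        _ ≤ ‖ζ‖ ^ (2 * m) * ‖g1 ζ‖ ^ 2 + ‖k ζ‖ ^ 2 := by
            nlinarith [sq_nonneg ‖k ζ‖]
    · by_cases hq2 : q 1 = 0
      · refine ⟨(‖g2 0‖ / 2) ^ 4, by positivity, ?_⟩
        have hev : ∀ᶠ ζ in 𝓝 (0 : ℂ), ‖g2 0‖ / 2 < ‖g2 ζ‖ :=
          hc2.norm.eventually (lt_mem_nhds (by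
            have : 0 < ‖g2 0‖ := norm_pos_iff.2 h2
            linarith))
        filter_upwards [hev] with ζ hζ
        have hb : (‖g2 0‖ / 2) ^ 4 ≤ ‖g2 ζ‖ ^ 4 := pow_le_pow_left₀ (by positivity) hζ.le 4
        have hc : ‖k ζ‖ ^ 2 = ‖ζ‖ ^ (4 * m) * ‖g2 ζ‖ ^ 4 := by
          simp only [k]
          rw [hq2, mul_zero, zero_add, norm_mul, norm_mul, norm_pow]
          ring
        rw [hc]
        have : (‖g2 0‖ / 2) ^ 4 * ‖ζ‖ ^ (4 * m) ≤ ‖g2 ζ‖ ^ 4 * ‖ζ‖ ^ (4 * m) :=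
          mul_le_mul_of_nonneg_right hb (by positivity)
        nlinarith [sq_nonneg ‖ζ ^ m * g1 ζ‖]
      · refine ⟨(‖g2 0‖ / 2 * ‖q 1‖) ^ 2, by positivity, ?_⟩
        have hev : ∀ᶠ ζ in 𝓝 (0 : ℂ), ‖g2 0‖ / 2 < ‖g2 ζ‖ :=
          hc2.norm.eventually (lt_mem_nhds (by
            have : 0 < ‖g2 0‖ := norm_pos_iff.2 h2
            linarith))
        have hev2 : ∀ᶠ ζ in 𝓝 (0 : ℂ), ‖q 1‖ < ‖2 * q 1 + ζ ^ m * g2 ζ‖ := by
          have hcc : ContinuousAt (fun ζ : ℂ => ‖2 * q 1 + ζ ^ m * g2 ζ‖) 0 := by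
            have : ContinuousAt (fun ζ : ℂ => ζ ^ m) 0 := by fun_prop
            exact ((continuousAt_const).add (this.mul hc2)).norm
          refine hcc.eventually (lt_mem_nhds ?_)
          have : 0 < ‖q 1‖ := norm_pos_iff.2 hq2
          simp only [ne_eq, hm1, not_false_eq_true, zero_pow, zero_mul, add_zero]
          rw [norm_mul]
          simp only [Complex.norm_ofNat]
          linarith
        filter_upwards [hev, hev2, hball] with ζ hζ hζ2 hζ1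
        have ha : ‖ζ‖ ^ (4 * m) ≤ ‖ζ‖ ^ (2 * m) :=
          pow_le_pow_of_le_one (norm_nonneg _) hζ1.le (by omega)
        have hb : (‖g2 0‖ / 2 * ‖q 1‖) ^ 2 ≤ (‖g2 ζ‖ * ‖2 * q 1 + ζ ^ m * g2 ζ‖) ^ 2 := by
          refine pow_le_pow_left₀ (by positivity) ?_ 2
          exact mul_le_mul hζ.le hζ2.le (by positivity) (by positivity)
        have hc : ‖k ζ‖ ^ 2 = ‖ζ‖ ^ (2 * m) * (‖g2 ζ‖ * ‖2 * q 1 + ζ ^ m * g2 ζ‖) ^ 2 := by
          simp only [k]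
          rw [norm_mul, norm_mul, norm_pow]
          ring
        rw [hc]
        calc (‖g2 0‖ / 2 * ‖q 1‖) ^ 2 * ‖ζ‖ ^ (4 * m)
            ≤ (‖g2 ζ‖ * ‖2 * q 1 + ζ ^ m * g2 ζ‖) ^ 2 * ‖ζ‖ ^ (2 * m) :=
              mul_le_mul hb ha (by positivity) (by positivity)
          _ ≤ _ := by nlinarith [sq_nonneg ‖ζ ^ m * g1 ζ‖]
  obtain ⟨c, hc, hcl⟩ := hlow
  obtain ⟨K, hK⟩ := hN.bound
  have hsmall : ∀ᶠ ζ in 𝓝 (0 : ℂ), |K| * ‖ζ‖ < c ∧ ‖ζ‖ < 1 := by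
    have h1 : ContinuousAt (fun ζ : ℂ => |K| * ‖ζ‖) 0 := by fun_prop
    have h2 : ContinuousAt (fun ζ : ℂ => ‖ζ‖) 0 := by fun_prop
    exact (h1.eventually (gt_mem_nhds (by simpa using hc))).and
      (h2.eventually (gt_mem_nhds (by simp)))
  have hneg : ∀ᶠ ζ in 𝓝 (0 : ℂ), ζ ≠ 0 → (H ζ).re < 0 := by
    filter_upwards [hrho, hcl, hK, hsmall] with ζ h1 h2 h3 h4 hζ
    have hpos : 0 < ‖ζ‖ := norm_pos_iff.2 hζ
    rw [Real.norm_eq_abs, norm_pow, norm_norm] at h3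
    have h5 : ‖ζ‖ ^ N ≤ ‖ζ‖ ^ (4 * m + 1) :=
      pow_le_pow_of_le_one (norm_nonneg _) h4.2.le (by omega)
    have h6 : K * ‖ζ‖ ^ N ≤ |K| * ‖ζ‖ ^ (4 * m + 1) :=
      (mul_le_mul_of_nonneg_right (le_abs_self K) (by positivity)).trans
        (mul_le_mul_of_nonneg_left h5 (abs_nonneg K))
    have h7 : |K| * ‖ζ‖ ^ (4 * m + 1) < c * ‖ζ‖ ^ (4 * m) := by
      rw [pow_succ]
      have : 0 < ‖ζ‖ ^ (4 * m) := by positivity
      nlinarith [h4.1]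
    have h8 := (abs_le.1 h3).2
    linarith
  have hHan : AnalyticAt ℂ H 0 := by
    have hid : AnalyticAt ℂ (fun ζ : ℂ => ζ ^ m) 0 := analyticAt_id.pow m
    have hkan : AnalyticAt ℂ k 0 := (hid.mul hg2).mul (analyticAt_const.add (hid.mul hg2))
    exact (analyticAt_const.mul (hid.mul hg1)).add (analyticAt_const.mul hkan)
  have hH0 : H 0 = 0 := by
    simp [H, k, hm1]
  have hd : ∀ᶠ ζ in 𝓝 (0 : ℂ), DifferentiableAt ℂ (fun ζ => Complex.exp (H ζ)) ζ := by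
    filter_upwards [hHan.eventually_analyticAt] with ζ hζ
    exact hζ.differentiableAt.cexp
  have hmax : IsLocalMax (norm ∘ fun ζ => Complex.exp (H ζ)) 0 := by
    filter_upwards [hneg] with ζ hζ
    simp only [Function.comp, Complex.norm_exp, hH0, Complex.zero_re]
    by_cases h : ζ = 0
    · rw [h, hH0]; simp
    · exact Real.exp_le_exp.2 (hζ h).le
  have hconst := Complex.eventually_eq_of_isLocalMax_norm hd hmax
  have hall : ∀ᶠ ζ in 𝓝 (0 : ℂ), ζ = 0 := by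
    filter_upwards [hconst, hneg] with ζ h1 h2
    by_contra hζ
    have h3 := congrArg norm h1
    rw [Complex.norm_exp, Complex.norm_exp, hH0, Complex.zero_re] at h3
    exact (h2 hζ).ne (Real.exp_injective h3)
  have hne' : (𝓝[≠] (0 : ℂ)).NeBot := inferInstance
  have h1 : ∀ᶠ ζ in 𝓝[≠] (0 : ℂ), ζ = 0 := nhdsWithin_le_nhds hall
  have h2 : ∀ᶠ ζ in 𝓝[≠] (0 : ℂ), ζ ≠ 0 := eventually_mem_nhdsWithin
  obtain ⟨ζ, h3, h4⟩ := (h1.and h2).exists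
  exact h4 h3

end TH637.Sq
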